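import Mathlib

set_option autoImplicit false

namespace Pool.Agent.P.MP_caa0a9_co

open Classical

/-- A fence: the elements can be listed `x 0, …, x (n-1)` so that the covers are exactly between
consecutive elements. -/
def IsFence (F : Type) [PartialOrder F] : Prop :=
  ∃ (n : ℕ) (x : Fin n ≃ F), ∀ i j : Fin n,
    (x i ⋖ x j ∨ x j ⋖ x i) ↔ (i.val + 1 = j.val ∨ j.val + 1 = i.val)

/-- Antichains of a poset. -/
def Antichains (F : Type) [PartialOrder F] : Type :=
  {A : Set F // IsAntichain (· ≤ ·) A}

variable {F : Type} [PartialOrder F]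

/-- The antichain toggle as a function. -/
noncomputable def toggleFun (x : F) (A : Antichains F) : Antichains F :=
  if h : IsAntichain (· ≤ ·) (symmDiff A.1 {x}) then ⟨symmDiff A.1 {x}, h⟩ else A

theorem toggleFun_involutive (x : F) : Function.Involutive (toggleFun x) := by
  intro A
  by_cases h : IsAntichain (· ≤ ·) (symmDiff A.1 {x})
  · have e : symmDiff (symmDiff A.1 {x}) {x} = A.1 := symmDiff_symmDiff_cancel_right _ _
    simp only [toggleFun, dif_pos h, e, dif_pos A.2]
    rfl
  · simp only [toggleFun, dif_neg h]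

/-- The antichain toggle as a permutation. -/
noncomputable def toggle (x : F) : Equiv.Perm (Antichains F) :=
  (toggleFun_involutive x).toPerm (toggleFun x)

/-- Coxeter elements: products of all toggles, each once, in some order. -/
def IsCoxeter (w : Equiv.Perm (Antichains F)) : Prop :=
  ∃ l : List F, l.Nodup ∧ (∀ y, y ∈ l) ∧ w = (l.map toggle).prod

/-- Indicator function of `y`. -/
noncomputable def chi (y : F) (A : Antichains F) : ℝ := if y ∈ A.1 then 1 else 0

/-- `f` has average `c` on every orbit of `W`. -/
def Mesic {X : Type} (W : Subgroup (Equiv.Perm X)) (f : X → ℝ) (c : ℝ) : Prop :=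
  ∀ A : X, (∑ᶠ B ∈ MulAction.orbit W A, f B) / (MulAction.orbit W A).ncard = c

/-- `f` has equal sums on orbits of `W` of equal size. -/
def Orbomesic {X : Type} (W : Subgroup (Equiv.Perm X)) (f : X → ℝ) : Prop :=
  ∀ A A' : X, (MulAction.orbit W A).ncard = (MulAction.orbit W A').ncard →
    ∑ᶠ B ∈ MulAction.orbit W A, f B = ∑ᶠ B ∈ MulAction.orbit W A', f B

end Pool.Agent.P.MP_caa0a9_co
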