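import Mathlib
import Pool.Agent.P.MP_caa0a9_co.Defs

set_option autoImplicit false
set_option linter.unusedSectionVars false

namespace Pool.Agent.P.MP_caa0a9_co

open Classical

variable {F : Type} [PartialOrder F]

/-- comparability -/
def Cmp (a b : F) : Prop := a < b ∨ b < a

theorem Cmp.symm {a b : F} (h : Cmp a b) : Cmp b a := Or.symm h

theorem Cmp.ne {a b : F} (h : Cmp a b) : a ≠ b := by
  rcases h with h | h
  · exact h.ne
  · exact h.ne'

theorem anti_iff {A : Set F} : IsAntichain (· ≤ ·) A ↔ ∀ a ∈ A, ∀ b ∈ A, ¬ Cmp a b := by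
  constructor
  · rintro h a ha b hb (c | c)
    · exact h ha hb c.ne c.le
    · exact h hb ha c.ne c.le
  · intro h a ha b hb hne hle
    exact h a ha b hb (Or.inl (lt_of_le_of_ne hle hne))

theorem not_cmp (A : Antichains F) {a b : F} (ha : a ∈ A.1) (hb : b ∈ A.1) : ¬ Cmp a b :=
  anti_iff.1 A.2 a ha b hb

theorem ac_ext {A B : Antichains F} (h : ∀ y, y ∈ A.1 ↔ y ∈ B.1) : A = B :=
  Subtype.ext (Set.ext h)

theorem toggle_apply (x : F) (A : Antichains F) : toggle x A = toggleFun x A := rfl

theorem toggle_mul_self (x : F) : toggle x * toggle x = 1 := by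
  ext1 A
  exact toggleFun_involutive x A

theorem mem_toggle_ne {x y : F} (h : y ≠ x) (A : Antichains F) : y ∈ (toggle x A).1 ↔ y ∈ A.1 := by
  rw [toggle_apply, toggleFun]
  split_ifs
  · simp [Set.mem_symmDiff, h]
  · rfl

theorem mem_toggle_self (x : F) (A : Antichains F) :
    x ∈ (toggle x A).1 ↔ x ∉ A.1 ∧ ∀ z ∈ A.1, ¬ Cmp z x := by
  rw [toggle_apply, toggleFun]
  split_ifs with h
  · rw [anti_iff] at h
    simp only [Set.mem_symmDiff, Set.mem_singleton_iff, not_true_eq_false, and_false, true_and,
      false_or] at h ⊢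
    refine ⟨fun hx => ⟨hx, fun z hz c => ?_⟩, fun hx => hx.1⟩
    exact h z (Or.inl ⟨hz, c.ne⟩) x (Or.inr ⟨rfl, hx⟩) c
  · rw [anti_iff] at h
    constructor
    · intro hx
      exfalso
      apply h
      intro a ha b hb
      simp only [Set.mem_symmDiff, Set.mem_singleton_iff] at ha hb
      refine not_cmp A ?_ ?_
      · rcases ha with ha | ⟨rfl, ha⟩
        · exact ha.1
        · exact hx
      · rcases hb with hb | ⟨rfl, hb⟩
        · exact hb.1
        · exact hx
    · rintro ⟨hx, hz⟩
      exfalso
      apply h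
      intro a ha b hb
      simp only [Set.mem_symmDiff, Set.mem_singleton_iff] at ha hb
      rcases ha with ha | ⟨rfl, ha⟩ <;> rcases hb with hb | ⟨rfl, hb⟩
      · exact not_cmp A ha.1 hb.1
      · exact hz a ha.1
      · exact fun c => hz b hb.1 c.symm
      · exact fun c => c.ne rfl

theorem toggle_blocked {x z : F} {A : Antichains F} (hz : z ∈ A.1) (c : Cmp z x) :
    toggle x A = A := by
  refine ac_ext fun y => ?_
  by_cases h : y = x
  · subst h
    rw [mem_toggle_self]
    exact ⟨fun h => (h.2 z hz c).elim, fun h => (not_cmp A hz h c).elim⟩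
  · exact mem_toggle_ne h A

theorem toggle_commute {x y : F} (h : ¬ Cmp x y) : Commute (toggle x) (toggle y) := by
  by_cases hxy : x = y
  · subst hxy; exact Commute.refl _
  have key : ∀ {x y : F}, x ≠ y → ¬ Cmp x y → ∀ A : Antichains F,
      (x ∈ (toggle x (toggle y A)).1 ↔ x ∈ (toggle y (toggle x A)).1) := by
    intro x y hxy h A
    rw [mem_toggle_ne hxy, mem_toggle_self, mem_toggle_self, mem_toggle_ne hxy]
    refine and_congr_right fun _ => ⟨fun H z hz c => ?_, fun H z hz c => ?_⟩
    · have : z ≠ y := by rintro rfl; exact h c.symm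
      exact H z ((mem_toggle_ne this A).2 hz) c
    · have : z ≠ y := by rintro rfl; exact h c.symm
      exact H z ((mem_toggle_ne this A).1 hz) c
  ext1 A
  refine ac_ext fun z => ?_
  simp only [Equiv.Perm.mul_apply]
  by_cases h1 : z = x
  · subst h1; exact key hxy h A
  by_cases h2 : z = y
  · subst h2; exact (key (Ne.symm hxy) (fun c => h c.symm) A).symm
  simp only [mem_toggle_ne h1, mem_toggle_ne h2]

/-- the elements comparable with `u` are pairwise comparable -/
def Simp (u : F) : Prop := ∀ a b, Cmp a u → Cmp b u → a ≠ b → Cmp a b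

theorem sig_fix {u t : F} (hu : Simp u) (c : Cmp u t) {A : Antichains F} (h1 : u ∉ A.1)
    (h2 : t ∉ A.1) : (toggle u * toggle t * toggle u) A = A := by
  simp only [Equiv.Perm.mul_apply]
  by_cases h : ∃ z ∈ A.1, Cmp z u
  · obtain ⟨z, hz, cz⟩ := h
    have : z ≠ t := by rintro rfl; exact h2 hz
    rw [toggle_blocked hz cz, toggle_blocked hz (hu z t cz c.symm this), toggle_blocked hz cz]
  · push Not at h
    have : u ∈ (toggle u A).1 := (mem_toggle_self u A).2 ⟨h1, h⟩
    rw [toggle_blocked this c]
    exact toggleFun_involutive u A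

theorem sig_sq (u t : F) :
    (toggle u * toggle t * toggle u) * (toggle u * toggle t * toggle u) = 1 := by
  calc (toggle u * toggle t * toggle u) * (toggle u * toggle t * toggle u)
      = toggle u * (toggle t * (toggle u * toggle u) * toggle t) * toggle u := by
        simp only [mul_assoc]
    _ = 1 := by rw [toggle_mul_self, mul_one, toggle_mul_self, mul_one, toggle_mul_self]

theorem sig_commute {u t v : F} (hu : Simp u) (c : Cmp u t) (h1 : v ≠ u) (h2 : v ≠ t)
    (h : Cmp v t ↔ Cmp v u) : Commute (toggle v) (toggle u * toggle t * toggle u) := by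
  by_cases hv : Cmp v u
  · have hv' := h.2 hv
    ext1 A
    set s := toggle u * toggle t * toggle u with hs
    simp only [Equiv.Perm.mul_apply]
    have blk : ∀ B : Antichains F, (u ∈ B.1 ∨ t ∈ B.1) → toggle v B = B := by
      rintro B (hB | hB)
      · exact toggle_blocked hB hv.symm
      · exact toggle_blocked hB hv'.symm
    by_cases hA : u ∈ A.1 ∨ t ∈ A.1
    · rw [blk A hA]
      apply blk
      by_contra hn
      push Not at hn
      have e1 : s (s A) = s A := sig_fix hu c hn.1 hn.2
      have e2 : s A = A := s.injective e1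
      rw [e2] at hn
      exact hA.elim hn.1 hn.2
    · push Not at hA
      have e1 : s A = A := sig_fix hu c hA.1 hA.2
      have e2 : s (toggle v A) = toggle v A :=
        sig_fix hu c (by rw [mem_toggle_ne h1.symm]; exact hA.1)
          (by rw [mem_toggle_ne h2.symm]; exact hA.2)
      rw [e1, e2]
  · have hv' : ¬ Cmp v t := fun c' => hv (h.1 c')
    exact ((toggle_commute hv).mul_right (toggle_commute hv')).mul_right (toggle_commute hv)

/-- product of toggles along a word -/
noncomputable def W (l : List F) : Equiv.Perm (Antichains F) := (l.map toggle).prod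

theorem W_nil : W ([] : List F) = 1 := rfl

theorem W_cons (x : F) (l : List F) : W (x :: l) = toggle x * W l := by simp [W]

theorem W_append (p q : List F) : W (p ++ q) = W p * W q := by simp [W]

theorem mem_W {y : F} {l : List F} (h : y ∉ l) (A : Antichains F) : y ∈ (W l A).1 ↔ y ∈ A.1 := by
  induction l with
  | nil => rfl
  | cons x l ih =>
    simp only [List.mem_cons, not_or] at h
    rw [W_cons, Equiv.Perm.mul_apply, mem_toggle_ne h.1, ih h.2]

theorem W_commute {g : Equiv.Perm (Antichains F)} {l : List F}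
    (h : ∀ x ∈ l, Commute (toggle x) g) : Commute (W l) g := by
  induction l with
  | nil => exact Commute.one_left _
  | cons x l ih =>
    rw [W_cons]
    exact (h x (by simp)).mul_left (ih fun y hy => h y (by simp [hy]))

theorem chi_congr {y : F} {A B : Antichains F} (h : y ∈ A.1 ↔ y ∈ B.1) : chi y A = chi y B := by
  simp only [chi, h]

/-- conjugacy preserving all indicator statistics up to coboundaries -/
def Eqv (w w' : Equiv.Perm (Antichains F)) : Prop :=
  ∃ P : Equiv.Perm (Antichains F), P * w = w' * P ∧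
    ∀ y, ∃ g : Antichains F → ℝ, ∀ A, chi y (P A) - chi y A = g (w A) - g A

theorem Eqv.refl (w : Equiv.Perm (Antichains F)) : Eqv w w :=
  ⟨1, by simp, fun _ => ⟨0, by simp⟩⟩

theorem Eqv.symm {w w' : Equiv.Perm (Antichains F)} (h : Eqv w w') : Eqv w' w := by
  obtain ⟨P, hP, hg⟩ := h
  have e : P⁻¹ * w' = w * P⁻¹ := by
    rw [inv_mul_eq_iff_eq_mul, ← mul_assoc, hP, mul_inv_cancel_right]
  refine ⟨P⁻¹, e, fun y => ?_⟩
  obtain ⟨g, hg⟩ := hg y
  refine ⟨fun B => - g (P⁻¹ B), fun B => ?_⟩
  have h1 := hg (P⁻¹ B)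
  have h2 : P⁻¹ (w' B) = w (P⁻¹ B) := congrArg (fun u : Equiv.Perm (Antichains F) => u B) e
  have h3 : P (P⁻¹ B) = B := P.apply_symm_apply B
  rw [h3] at h1
  simp only [h2]
  linarith

theorem Eqv.trans {w w' w'' : Equiv.Perm (Antichains F)} (h : Eqv w w') (h' : Eqv w' w'') :
    Eqv w w'' := by
  obtain ⟨P, hP, hg⟩ := h
  obtain ⟨Q, hQ, hk⟩ := h'
  refine ⟨Q * P, by rw [mul_assoc, hP, ← mul_assoc, hQ, mul_assoc], fun y => ?_⟩
  obtain ⟨g, hg⟩ := hg y
  obtain ⟨k, hk⟩ := hk y
  refine ⟨fun A => g A + k (P A), fun A => ?_⟩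
  have h1 := hg A
  have h2 := hk (P A)
  have h3 : P (w A) = w' (P A) := congrArg (fun u : Equiv.Perm (Antichains F) => u A) hP
  simp only [h3, Equiv.Perm.mul_apply]
  linarith

theorem rot {p q : List F} (h : (p ++ q).Nodup) : Eqv (W (p ++ q)) (W (q ++ p)) := by
  refine ⟨W q, by rw [W_append, W_append, mul_assoc], fun y => ?_⟩
  by_cases hy : y ∈ q
  · have hp : y ∉ p := fun hp => (List.disjoint_of_nodup_append h) hp hy
    refine ⟨chi y, fun A => ?_⟩
    rw [W_append, Equiv.Perm.mul_apply, chi_congr (mem_W hp (W q A))]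
  · exact ⟨0, fun A => by rw [chi_congr (mem_W hy A)]; simp⟩

theorem chi_ut {u t : F} (hu : Simp u) (c : Cmp u t) (A : Antichains F) :
    chi u (toggle u A) + chi t A = chi u (toggle u (toggle t A)) + chi t (toggle t A) := by
  by_cases h1 : t ∈ A.1
  · have a1 : u ∉ A.1 := fun h => not_cmp A h h1 c
    have a2 : t ∉ (toggle t A).1 := fun h => ((mem_toggle_self t A).1 h).1 h1
    have a3 : u ∈ (toggle u (toggle t A)).1 := by
      rw [mem_toggle_self, mem_toggle_ne c.ne]
      refine ⟨a1, fun z hz cz => ?_⟩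
      have hzt : z ≠ t := by rintro rfl; exact a2 hz
      rw [mem_toggle_ne hzt] at hz
      exact not_cmp A hz h1 (hu z t cz c.symm hzt)
    rw [toggle_blocked h1 c.symm]
    simp [chi, h1, a1, a2, a3]
  by_cases h2 : t ∈ (toggle t A).1
  · have h3 := ((mem_toggle_self t A).1 h2).2
    have a1 : u ∉ A.1 := fun h => h3 u h c
    have a2 : u ∈ (toggle u A).1 := by
      rw [mem_toggle_self]
      refine ⟨a1, fun z hz cz => ?_⟩
      have hzt : z ≠ t := by rintro rfl; exact h1 hz
      exact h3 z hz (hu z t cz c.symm hzt)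
    have a3 : u ∉ (toggle t A).1 := by rw [mem_toggle_ne c.ne]; exact a1
    rw [toggle_blocked h2 c.symm]
    simp [chi, h1, h2, a2, a3]
  · have : toggle t A = A := by
      refine ac_ext fun y => ?_
      by_cases h : y = t
      · subst h; simp [h1, h2]
      · exact mem_toggle_ne h A
    rw [this]

theorem swap_core {u t : F} (hu : Simp u) (c : Cmp u t) {la lb : List F}
    (hn : (la ++ lb ++ [u, t]).Nodup) (ha : ∀ v ∈ la, (Cmp v t ↔ Cmp v u))
    (hb : ∀ y ∈ lb, ¬ Cmp y u) (hab : ∀ y ∈ lb, ∀ v ∈ la, ¬ Cmp y v) :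
    Eqv (W (la ++ lb ++ [u, t])) (W (la ++ lb ++ [t, u])) := by
  have hd := List.disjoint_of_nodup_append hn
  have hd2 := List.disjoint_of_nodup_append (List.Nodup.of_append_left hn)
  have ua : u ∉ la := fun h => hd (List.mem_append_left _ h) (by simp)
  have ta : t ∉ la := fun h => hd (List.mem_append_left _ h) (by simp)
  have ub : u ∉ lb := fun h => hd (List.mem_append_right _ h) (by simp)
  have tb : t ∉ lb := fun h => hd (List.mem_append_right _ h) (by simp)
  have c1 : Commute (W la) (toggle u * toggle t * toggle u) :=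
    W_commute fun v hv => sig_commute hu c (by rintro rfl; exact ua hv)
      (by rintro rfl; exact ta hv) (ha v hv)
  have c2 : Commute (W lb) (toggle u) := W_commute fun y hy => toggle_commute (hb y hy)
  have c3 : Commute (W lb) (W la) :=
    W_commute fun y hy => (W_commute fun v hv => (toggle_commute (hab y hy v hv)).symm).symm
  have e1 : W (la ++ lb ++ [u, t]) = W la * W lb * (toggle u * toggle t) := by
    simp only [W_append, W_cons, W_nil, mul_one]
  have e2 : W (la ++ lb ++ [t, u]) = W la * W lb * (toggle t * toggle u) := by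
    simp only [W_append, W_cons, W_nil, mul_one]
  have uu := toggle_mul_self u
  have tt := toggle_mul_self t
  rw [e1, e2]
  set a := W la
  set b := W lb
  set x := toggle u
  set z := toggle t
  have xx : ∀ g, x * (x * g) = g := fun g => by rw [← mul_assoc, uu, one_mul]
  refine ⟨a * x, ?_, fun y => ?_⟩
  · calc a * x * (a * b * (x * z)) = a * (x * (a * b)) * (x * z) := by simp only [mul_assoc]
      _ = a * (b * x * a) * (x * z) := by rw [← c3.eq, ← mul_assoc x, ← c2.eq]
      _ = a * b * x * (a * (x * z * x)) * x := by simp only [mul_assoc, uu, mul_one]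
      _ = a * b * x * (x * z * x * a) * x := by rw [c1.eq]
      _ = a * b * (z * x) * (a * x) := by simp only [mul_assoc, xx]
  · by_cases hy : y ∈ la
    · have yb : y ∉ lb := fun h => hd2 hy h
      have yu : y ≠ u := by rintro rfl; exact ua hy
      have yt : y ≠ t := by rintro rfl; exact ta hy
      refine ⟨chi y, fun A => ?_⟩
      have e : b * (x * z * x * (a * x)) = a * b * (x * z) := by
        calc b * (x * z * x * (a * x)) = b * (x * z * x * a) * x := by simp only [mul_assoc]
          _ = b * (a * (x * z * x)) * x := by rw [c1.eq]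
          _ = b * a * (x * z) := by simp only [mul_assoc, uu, mul_one]
          _ = a * b * (x * z) := by rw [c3.eq]
      rw [← e]
      congr 1
      apply chi_congr
      simp only [Equiv.Perm.mul_apply]
      rw [mem_W yb, mem_toggle_ne yu, mem_toggle_ne yt, mem_toggle_ne yu]
    · by_cases yu : y = u
      · subst yu
        refine ⟨fun A => chi y A + chi t A, fun A => ?_⟩
        simp only [Equiv.Perm.mul_apply]
        rw [chi_congr (mem_W ua _), chi_congr (mem_W ua _), chi_congr (mem_W ub _),
          chi_congr (mem_W ta _), chi_congr (mem_W tb _), chi_congr (mem_toggle_ne c.ne.symm _)]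
        have := chi_ut hu c A
        linarith
      · refine ⟨0, fun A => ?_⟩
        simp only [Equiv.Perm.mul_apply]
        rw [chi_congr (mem_W hy _), chi_congr (mem_toggle_ne yu _)]
        simp

/-- adjacent letters `x`, `y` may be exchanged in any word -/
def SwapOK (x y : F) : Prop :=
  ∀ p q : List F, (p ++ x :: y :: q).Nodup → Eqv (W (p ++ x :: y :: q)) (W (p ++ y :: x :: q))

theorem nodup_swap {x y : F} {p q : List F} (h : (p ++ x :: y :: q).Nodup) :
    (p ++ y :: x :: q).Nodup :=
  ((List.Perm.swap y x q).append_left p).nodup_iff.1 h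

theorem SwapOK.symm {x y : F} (h : SwapOK x y) : SwapOK y x :=
  fun p q hn => (h p q (nodup_swap hn)).symm

theorem swapOK_of_not_cmp {x y : F} (h : ¬ Cmp x y) : SwapOK x y := by
  intro p q _
  have : W (p ++ x :: y :: q) = W (p ++ y :: x :: q) := by
    simp only [W_append, W_cons]
    rw [← mul_assoc (toggle x), (toggle_commute h).eq, mul_assoc]
  rw [this]
  exact Eqv.refl _

theorem move {y : F} {m : List F} (h : ∀ x ∈ m, SwapOK y x) (p q : List F)
    (hn : (p ++ y :: (m ++ q)).Nodup) : Eqv (W (p ++ y :: (m ++ q))) (W (p ++ (m ++ y :: q))) := by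
  induction m generalizing p with
  | nil => exact Eqv.refl _
  | cons x m ih =>
    have h1 := h x (by simp) p (m ++ q) hn
    have h2 := ih (fun z hz => h z (by simp [hz])) (p ++ [x])
      (by simpa using nodup_swap hn)
    simp only [List.append_assoc, List.cons_append, List.nil_append] at h2 ⊢
    exact h1.trans h2

theorem block {m m' : List F} (h : ∀ y ∈ m', ∀ x ∈ m, SwapOK y x) (p q : List F)
    (hn : (p ++ (m' ++ (m ++ q))).Nodup) :
    Eqv (W (p ++ (m' ++ (m ++ q)))) (W (p ++ (m ++ (m' ++ q)))) := by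
  induction m' generalizing p with
  | nil => exact Eqv.refl _
  | cons y m' ih =>
    have h1 := ih (fun z hz => h z (by simp [hz])) (p ++ [y]) (by simpa using hn)
    have hp : (p ++ (y :: m' ++ (m ++ q))).Perm (p ++ y :: (m ++ (m' ++ q))) := by
      refine List.Perm.append_left p (List.Perm.cons y ?_)
      show (m' ++ (m ++ q)).Perm (m ++ (m' ++ q))
      rw [← List.append_assoc, ← List.append_assoc]
      exact List.perm_append_comm.append_right q
    have h2 := move (h y (by simp)) p (m' ++ q) (hp.nodup_iff.1 hn)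
    simp only [List.append_assoc, List.cons_append, List.nil_append] at h1 h2 ⊢
    exact h1.trans h2

theorem sort_word (P : F → Prop) {m : List F}
    (h : ∀ y ∈ m, ∀ x ∈ m, P y → ¬ P x → SwapOK y x) (p q : List F) (hn : (p ++ (m ++ q)).Nodup) :
    Eqv (W (p ++ (m ++ q)))
      (W (p ++ (m.filter (fun x => ¬ P x) ++ (m.filter (fun x => P x) ++ q)))) := by
  induction m generalizing p with
  | nil => exact Eqv.refl _
  | cons y m ih =>
    have h1 := ih (fun a ha b hb => h a (by simp [ha]) b (by simp [hb])) (p ++ [y])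
      (by simpa using hn)
    by_cases hy : P y
    · have hp : (p ++ (y :: m ++ q)).Perm
          (p ++ y :: (m.filter (fun x => ¬ P x) ++ (m.filter (fun x => P x) ++ q))) := by
        refine List.Perm.append_left p (List.Perm.cons y ?_)
        rw [← List.append_assoc]
        refine List.Perm.append_right q ?_
        have := List.filter_append_perm (fun x => decide (¬ P x)) m
        simpa using this.symm
      have h2 := move (y := y) (m := m.filter (fun x => ¬ P x))
        (fun x hx => h y (by simp) x (by simp [(List.mem_filter.1 hx).1]) hy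
          (by simpa using (List.mem_filter.1 hx).2)) p (m.filter (fun x => P x) ++ q)
        (hp.nodup_iff.1 hn)
      simp only [List.append_assoc, List.cons_append, List.nil_append] at h1 h2 ⊢
      simpa [hy] using h1.trans h2
    · simp only [List.append_assoc, List.cons_append, List.nil_append] at h1 ⊢
      simpa [hy] using h1

theorem swapOK_of_end {x y : F}
    (h : ∀ m : List F, (m ++ [x, y]).Nodup → Eqv (W (m ++ [x, y])) (W (m ++ [y, x]))) :
    SwapOK x y := by
  intro p q hn
  have e : ∀ a b : F, p ++ a :: b :: q = (p ++ [a, b]) ++ q := by simp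
  have e' : ∀ a b : F, q ++ (p ++ [a, b]) = (q ++ p) ++ [a, b] := by simp
  have hn' := nodup_swap hn
  rw [e] at hn hn' ⊢
  rw [e]
  have h1 := rot hn
  have h2 := rot hn'
  have hn2 := List.perm_append_comm.nodup_iff.1 hn
  rw [e'] at h1 h2 hn2
  exact (h1.trans (h _ hn2)).trans h2.symm

theorem perm_filter (P : F → Prop) (m q : List F) :
    (m ++ q).Perm (m.filter (fun x => ¬ P x) ++ (m.filter (fun x => P x) ++ q)) := by
  rw [← List.append_assoc]
  refine List.Perm.append_right q ?_
  have := List.filter_append_perm (fun x => decide (¬ P x)) m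
  simpa using this.symm

theorem swapA {u t : F} (hu : Simp u) (c : Cmp u t) (P : F → Prop)
    (h1 : ∀ v, v ≠ u → v ≠ t → ¬ P v → (Cmp v t ↔ Cmp v u)) (h2 : ∀ y, P y → ¬ Cmp y u)
    (h3 : ∀ y v, v ≠ t → P y → ¬ P v → ¬ Cmp y v) : SwapOK u t := by
  refine swapOK_of_end fun m hn => ?_
  have hd := List.disjoint_of_nodup_append hn
  have mu : ∀ v ∈ m, v ≠ u := by rintro v hv rfl; exact hd hv (by simp)
  have mt : ∀ v ∈ m, v ≠ t := by rintro v hv rfl; exact hd hv (by simp)
  have hn' := nodup_swap hn
  have hs : ∀ y ∈ m, ∀ x ∈ m, P y → ¬ P x → SwapOK y x :=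
    fun y _ x hx py px => swapOK_of_not_cmp (h3 y x (mt x hx) py px)
  have s1 := sort_word P hs [] [u, t] hn
  have s2 := sort_word P hs [] [t, u] hn'
  simp only [List.nil_append, ← List.append_assoc] at s1 s2
  refine (s1.trans (swap_core hu c ?_ ?_ ?_ ?_)).trans s2.symm
  · rw [List.append_assoc]; exact (perm_filter P m _).nodup_iff.1 hn
  · intro v hv
    have := List.mem_filter.1 hv
    exact h1 v (mu v this.1) (mt v this.1) (by simpa using this.2)
  · intro y hy
    exact h2 y (by simpa using (List.mem_filter.1 hy).2)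
  · intro y hy v hv
    have := List.mem_filter.1 hv
    exact h3 y v (mt v this.1) (by simpa using (List.mem_filter.1 hy).2) (by simpa using this.2)

theorem swapB {s t : F} (P : F → Prop) (h1 : ∀ v, v ≠ s → v ≠ t → ¬ P v → SwapOK t v)
    (h2 : ∀ y, P y → ¬ Cmp y s) (h3 : ∀ y v, v ≠ t → P y → ¬ P v → ¬ Cmp y v) : SwapOK s t := by
  refine swapOK_of_end fun m hn => ?_
  have hd := List.disjoint_of_nodup_append hn
  have ms : ∀ v ∈ m, v ≠ s := by rintro v hv rfl; exact hd hv (by simp)
  have mt : ∀ v ∈ m, v ≠ t := by rintro v hv rfl; exact hd hv (by simp)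
  have hn' := nodup_swap hn
  have hs : ∀ y ∈ m, ∀ x ∈ m, P y → ¬ P x → SwapOK y x :=
    fun y _ x hx py px => swapOK_of_not_cmp (h3 y x (mt x hx) py px)
  have s1 := sort_word P hs [] [s, t] hn
  have s2 := sort_word P hs [] [t, s] hn'
  have n1 := (perm_filter P m _).nodup_iff.1 hn
  have n2 := (perm_filter P m _).nodup_iff.1 hn'
  simp only [List.nil_append] at s1 s2
  set a := m.filter (fun x => ¬ P x) with ha
  set b := m.filter (fun x => P x) with hb
  have ma : ∀ v ∈ a, v ∈ m ∧ ¬ P v := fun v hv => by simpa [ha] using List.mem_filter.1 hv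
  have mb : ∀ v ∈ b, v ∈ m ∧ P v := fun v hv => by simpa [hb] using List.mem_filter.1 hv
  have p1 : (a ++ (b ++ [s, t])).Perm (a ++ s :: (b ++ [t])) :=
    List.Perm.append_left a List.perm_middle
  have n3 := p1.nodup_iff.1 n1
  have t1 : Eqv (W (a ++ s :: (b ++ [t]))) (W (a ++ (b ++ [s, t]))) :=
    move (fun x hx => swapOK_of_not_cmp fun c => h2 x (mb x hx).2 c.symm) a [t] n3
  have e1 : a ++ s :: (b ++ [t]) = (a ++ [s]) ++ (b ++ [t]) := by simp
  have e2 : (b ++ [t]) ++ (a ++ [s]) = b ++ t :: (a ++ [s]) := by simp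
  rw [e1] at n3 t1
  have t2 := rot n3
  have n4 := List.perm_append_comm.nodup_iff.1 n3
  rw [e2] at t2 n4
  have t3 : Eqv (W (b ++ t :: (a ++ [s]))) (W (b ++ (a ++ [t, s]))) :=
    move (fun x hx => h1 x (ms x (ma x hx).1) (mt x (ma x hx).1) (ma x hx).2) b [s] n4
  have t4 : Eqv (W ([] ++ (a ++ (b ++ [t, s])))) (W ([] ++ (b ++ (a ++ [t, s])))) :=
    block (fun y hy x hx => (hs x (mb x hx).1 y (ma y hy).1 (mb x hx).2 (ma y hy).2).symm) [] _ n2
  simp only [List.nil_append] at t4
  exact ((((s1.trans t1.symm).trans t2).trans t3).trans t4.symm).trans s2.symm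

theorem eqv_of_perm (h : ∀ x y : F, SwapOK x y) {l l' : List F} (hp : l.Perm l') (p : List F)
    (hn : (p ++ l).Nodup) : Eqv (W (p ++ l)) (W (p ++ l')) := by
  induction hp generalizing p with
  | nil => exact Eqv.refl _
  | cons x _ ih => simpa using ih (p ++ [x]) (by simpa using hn)
  | swap x y l => exact h y x p l hn
  | trans h1 _ ih1 ih2 => exact (ih1 p hn).trans (ih2 p ((h1.append_left p).nodup_iff.1 hn))

theorem all_swapOK (pos : F → ℕ) (hinj : Function.Injective pos) (up dn : ℕ → Prop)
    (hex : ∀ k, up k → ¬ dn k)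
    (hR : ∀ a b, pos a < pos b → (Cmp a b ↔
      (∀ k, pos a ≤ k → k < pos b → up k) ∨ (∀ k, pos a ≤ k → k < pos b → dn k)))
    (x y : F) : SwapOK x y := by
  have conv : ∀ a b c, Cmp a c → pos a < pos b → pos b < pos c → Cmp a b ∧ Cmp b c := by
    intro a b c h h1 h2
    rw [hR a b h1, hR b c h2]
    rcases (hR a c (h1.trans h2)).1 h with h | h
    · exact ⟨Or.inl fun k k1 k2 => h k k1 (by omega), Or.inl fun k k1 k2 => h k (by omega) k2⟩
    · exact ⟨Or.inr fun k k1 k2 => h k k1 (by omega), Or.inr fun k k1 k2 => h k (by omega) k2⟩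
  have tri : ∀ a b : F, a ≠ b → pos a < pos b ∨ pos b < pos a := fun a b h =>
    lt_or_gt_of_ne fun e => h (hinj e)
  have sideL : ∀ t a b, Cmp a t → Cmp b t → a ≠ b → pos a < pos t → pos b < pos t → Cmp a b := by
    intro t a b ha hb hne h1 h2
    rcases tri a b hne with h | h
    · exact (conv a b t ha h h2).1
    · exact (conv b a t hb h h1).1.symm
  have sideR : ∀ t a b, Cmp a t → Cmp b t → a ≠ b → pos t < pos a → pos t < pos b → Cmp a b := by
    intro t a b ha hb hne h1 h2
    rcases tri a b hne with h | h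
    · exact (conv t a b hb.symm h1 h).2
    · exact (conv t b a ha.symm h2 h).2.symm
  have dich : ∀ t : F, Simp t ∨ ∀ a c, pos a < pos t → pos t < pos c → ¬ Cmp a c := by
    intro t
    by_cases hc : ∀ a c, pos a < pos t → pos t < pos c → ¬ Cmp a c
    · exact Or.inr hc
    left
    push Not at hc
    obtain ⟨a, c, h1, h2, h⟩ := hc
    have cross : ∀ a' c', Cmp a' t → Cmp c' t → pos a' < pos t → pos t < pos c' → Cmp a' c' := by
      intro a' c' ha hc g1 g2
      rw [hR a' c' (g1.trans g2)]
      rw [hR a' t g1] at ha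
      have hc' := (hR t c' g2).1 hc.symm
      rcases (hR a c (h1.trans h2)).1 h with h | h
      · have u1 := h (pos t - 1) (by omega) (by omega)
        have u2 := h (pos t) (by omega) (by omega)
        rcases ha with ha | ha
        · rcases hc' with hc' | hc'
          · exact Or.inl fun k k1 k2 => (lt_or_ge k (pos t)).elim (ha k k1) fun g => hc' k g k2
          · exact (hex _ u2 (hc' _ le_rfl g2)).elim
        · exact (hex _ u1 (ha _ (by omega) (by omega))).elim
      · have u1 := h (pos t - 1) (by omega) (by omega)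
        have u2 := h (pos t) (by omega) (by omega)
        rcases ha with ha | ha
        · exact (hex _ (ha _ (by omega) (by omega)) u1).elim
        · rcases hc' with hc' | hc'
          · exact (hex _ (hc' _ le_rfl g2) u2).elim
          · exact Or.inr fun k k1 k2 => (lt_or_ge k (pos t)).elim (ha k k1) fun g => hc' k g k2
    intro p q hp hq hne
    rcases tri p t hp.ne with g1 | g1 <;> rcases tri q t hq.ne with g2 | g2
    · exact sideL t p q hp hq hne g1 g2
    · exact cross p q hp hq g1 g2
    · exact (cross q p hq hp g2 g1).symm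
    · exact sideR t p q hp hq hne g1 g2
  have A : ∀ u t : F, Simp u → SwapOK u t := by
    intro u t hu
    by_cases c : Cmp u t
    swap
    · exact swapOK_of_not_cmp c
    rcases dich t with ht | ht
    · exact swapA hu c (fun _ => False)
        (fun v h1 h2 _ => ⟨fun h => ht v u h c h1, fun h => hu v t h c.symm h2⟩)
        (fun _ h => h.elim) (fun _ _ _ h => h.elim)
    rcases tri u t c.ne with g | g
    · refine swapA hu c (fun y => pos t < pos y)
        (fun v h1 h2 h3 => ⟨fun h => sideL t v u h c h1 ((tri v t h2).resolve_right h3) g,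
          fun h => hu v t h c.symm h2⟩)
        (fun y h c' => ht u y g h c'.symm)
        (fun y v h1 h2 h3 c' => ht v y ((tri v t h1).resolve_right h3) h2 c'.symm)
    · refine swapA hu c (fun y => pos y < pos t)
        (fun v h1 h2 h3 => ⟨fun h => sideR t v u h c h1 ((tri v t h2).resolve_left h3) g,
          fun h => hu v t h c.symm h2⟩)
        (fun y h c' => ht y u h g c')
        (fun y v h1 h2 h3 c' => ht y v h2 ((tri v t h1).resolve_left h3) c')
  have B : ∀ s t : F, Cmp s t → pos s < pos t → SwapOK s t := by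
    intro s t c g
    rcases dich s with hs | hs
    · exact A s t hs
    rcases dich t with ht | ht
    · exact (A t s ht).symm
    refine swapB (fun y => pos t < pos y) (fun v h1 h2 h3 => ?_) (fun y h c' => ht s y g h c'.symm)
      (fun y v h1 h2 h3 c' => ht v y ((tri v t h1).resolve_right h3) h2 c'.symm)
    rcases tri v s h1 with g1 | g1
    · exact swapOK_of_not_cmp fun c' => hs v t g1 g c'.symm
    · rcases dich v with hv | hv
      · exact (A v t hv).symm
      · exact (hv s t g1 ((tri v t h2).resolve_right h3) c).elim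
  by_cases c : Cmp x y
  · rcases tri x y c.ne with g | g
    · exact B x y c g
    · exact (B y x c.symm g).symm
  · exact swapOK_of_not_cmp c

theorem fence_swapOK [Finite F] (hF : IsFence F) (a b : F) : SwapOK a b := by
  obtain ⟨n, x, hx⟩ := hF
  let _ : Fintype F := Fintype.ofFinite F
  let _ : LocallyFiniteOrder F := Fintype.toLocallyFiniteOrder
  let pos : F → ℕ := fun a => (x.symm a).val
  have hinj : Function.Injective pos := fun a b h => x.symm.injective (Fin.ext h)
  let up : ℕ → Prop := fun k => ∃ a b, pos a = k ∧ pos b = k + 1 ∧ a < b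
  let dn : ℕ → Prop := fun k => ∃ a b, pos a = k ∧ pos b = k + 1 ∧ b < a
  have hex : ∀ k, up k → ¬ dn k := by
    rintro k ⟨a, b, h1, h2, h3⟩ ⟨c, d, g1, g2, g3⟩
    obtain rfl := hinj (h1.trans g1.symm)
    obtain rfl := hinj (h2.trans g2.symm)
    exact lt_asymm h3 g3
  have hcov : ∀ a b : F, a ⋖ b → pos a + 1 = pos b ∨ pos b + 1 = pos a := by
    intro a b h
    exact (hx (x.symm a) (x.symm b)).1 (Or.inl (by simpa using h))
  have fwd : ∀ a b : F, a < b → (pos a < pos b ∧ ∀ k, pos a ≤ k → k < pos b → up k) ∨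
      (pos b < pos a ∧ ∀ k, pos b ≤ k → k < pos a → dn k) := by
    intro a b h
    have h' := lt_iff_transGen_covBy.1 h
    clear h
    induction h' with
    | @single b h =>
      rcases hcov a b h with e | e
      · exact Or.inl ⟨by omega, fun k k1 k2 => ⟨a, b, by omega, by omega, h.lt⟩⟩
      · exact Or.inr ⟨by omega, fun k k1 k2 => ⟨b, a, by omega, by omega, h.lt⟩⟩
    | @tail m b _ h ih =>
      rcases ih with ⟨i1, i2⟩ | ⟨i1, i2⟩ <;> rcases hcov m b h with e | e
      · refine Or.inl ⟨by omega, fun k k1 k2 => ?_⟩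
        rcases lt_or_ge k (pos m) with g | g
        · exact i2 k k1 g
        · exact ⟨m, b, by omega, by omega, h.lt⟩
      · exact (hex _ (i2 (pos b) (by omega) (by omega)) ⟨b, m, rfl, by omega, h.lt⟩).elim
      · exact (hex _ ⟨m, b, rfl, by omega, h.lt⟩ (i2 (pos m) le_rfl i1)).elim
      · refine Or.inr ⟨by omega, fun k k1 k2 => ?_⟩
        rcases lt_or_ge k (pos m) with g | g
        · exact ⟨b, m, by omega, by omega, h.lt⟩
        · exact i2 k g k2
  have bwdU : ∀ d : ℕ, ∀ a b : F, pos b = pos a + d + 1 →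
      (∀ k, pos a ≤ k → k < pos b → up k) → a < b := by
    intro d
    induction d with
    | zero =>
      intro a b e h
      obtain ⟨c, d, h1, h2, h3⟩ := h (pos a) le_rfl (by omega)
      obtain rfl := hinj h1
      obtain rfl := hinj (h2.trans e.symm)
      exact h3
    | succ d ih =>
      intro a b e h
      obtain ⟨c, d', h1, h2, h3⟩ := h (pos a + d + 1) (by omega) (by omega)
      obtain rfl : d' = b := hinj (by omega)
      exact (ih a c h1 fun k k1 k2 => h k k1 (by omega)).trans h3
  have bwdD : ∀ d : ℕ, ∀ a b : F, pos b = pos a + d + 1 →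
      (∀ k, pos a ≤ k → k < pos b → dn k) → b < a := by
    intro d
    induction d with
    | zero =>
      intro a b e h
      obtain ⟨c, d, h1, h2, h3⟩ := h (pos a) le_rfl (by omega)
      obtain rfl := hinj h1
      obtain rfl := hinj (h2.trans e.symm)
      exact h3
    | succ d ih =>
      intro a b e h
      obtain ⟨c, d', h1, h2, h3⟩ := h (pos a + d + 1) (by omega) (by omega)
      obtain rfl : d' = b := hinj (by omega)
      exact h3.trans (ih a c h1 fun k k1 k2 => h k k1 (by omega))
  refine all_swapOK pos hinj up dn hex (fun a b h => ⟨?_, ?_⟩) a b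
  · rintro (c | c)
    · rcases fwd a b c with g | g
      · exact Or.inl g.2
      · omega
    · rcases fwd b a c with g | g
      · omega
      · exact Or.inr g.2
  · rintro (c | c)
    · exact Or.inl (bwdU (pos b - pos a - 1) a b (by omega) c)
    · exact Or.inr (bwdD (pos b - pos a - 1) a b (by omega) c)

theorem orbit_image {X : Type} {w w' P : Equiv.Perm X} (h : P * w = w' * P) (A : X) :
    MulAction.orbit (Subgroup.zpowers w') (P A) = P '' MulAction.orbit (Subgroup.zpowers w) A := by
  have hs : ∀ k : ℤ, (w' ^ k) (P A) = P ((w ^ k) A) := fun k =>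
    (congrArg (fun u : Equiv.Perm X => u A) (SemiconjBy.zpow_right (a := P) h k).eq).symm
  ext B
  constructor
  · rintro ⟨⟨_, k, rfl⟩, rfl⟩
    exact ⟨(w ^ k) A, ⟨⟨w ^ k, k, rfl⟩, rfl⟩, (hs k).symm⟩
  · rintro ⟨_, ⟨⟨_, k, rfl⟩, rfl⟩, rfl⟩
    exact ⟨⟨w' ^ k, k, rfl⟩, hs k⟩

theorem orbit_stats [Fintype F] {w w' : Equiv.Perm (Antichains F)} (h : Eqv w w') (lam : F → ℝ) :
    ∃ P : Equiv.Perm (Antichains F), ∀ A,
      (MulAction.orbit (Subgroup.zpowers w') (P A)).ncard =
        (MulAction.orbit (Subgroup.zpowers w) A).ncard ∧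
      ∑ᶠ B ∈ MulAction.orbit (Subgroup.zpowers w') (P A), (∑ y, lam y * chi y B) =
        ∑ᶠ B ∈ MulAction.orbit (Subgroup.zpowers w) A, (∑ y, lam y * chi y B) := by
  obtain ⟨P, hP, hg⟩ := h
  choose g hg using hg
  have : Finite (Antichains F) := Subtype.finite
  refine ⟨P, fun A => ?_⟩
  rw [orbit_image hP]
  refine ⟨Set.ncard_image_of_injective _ P.injective, ?_⟩
  rw [finsum_mem_image P.injective.injOn]
  set O := MulAction.orbit (Subgroup.zpowers w) A with hO
  have hfin : O.Finite := Set.toFinite _
  let G : Antichains F → ℝ := fun B => ∑ y, lam y * g y B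
  have e1 : ∀ B, ∑ y, lam y * chi y (P B) = ∑ y, lam y * chi y B + (G (w B) - G B) := by
    intro B
    simp only [G, ← Finset.sum_sub_distrib, ← Finset.sum_add_distrib]
    refine Finset.sum_congr rfl fun y _ => ?_
    have := hg y B
    rw [← mul_sub, ← this]; ring
  have e2 : w '' O = O := by
    rw [hO, ← orbit_image (w := w) (w' := w) (P := w) rfl]
    exact MulAction.orbit_eq_iff.2 ⟨⟨w, Subgroup.mem_zpowers w⟩, rfl⟩
  have e3 : ∑ᶠ B ∈ O, G (w B) = ∑ᶠ B ∈ O, G B := by
    rw [← finsum_mem_image (f := G) w.injective.injOn, e2]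
  simp only [e1]
  rw [finsum_mem_add_distrib hfin, finsum_mem_sub_distrib _ _ hfin, e3, sub_self, add_zero]

theorem main [Fintype F] (hF : IsFence F) {w w' : Equiv.Perm (Antichains F)} (hw : IsCoxeter w)
    (hw' : IsCoxeter w') (lam : F → ℝ) :
    (∀ c : ℝ, Mesic (Subgroup.zpowers w) (fun A => ∑ y, lam y * chi y A) c ↔
      Mesic (Subgroup.zpowers w') (fun A => ∑ y, lam y * chi y A) c) ∧
    (Orbomesic (Subgroup.zpowers w) (fun A => ∑ y, lam y * chi y A) ↔
      Orbomesic (Subgroup.zpowers w') (fun A => ∑ y, lam y * chi y A)) := by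
  obtain ⟨l, hl, hl2, rfl⟩ := hw
  obtain ⟨l', hl', hl2', rfl⟩ := hw'
  have hp : l.Perm l' := (List.perm_ext_iff_of_nodup hl hl').2 fun y => by simp [hl2, hl2']
  have he : Eqv (W l) (W l') := eqv_of_perm (fence_swapOK hF) hp [] hl
  have k1 : ∀ {w w' : Equiv.Perm (Antichains F)}, Eqv w w' → ∀ c : ℝ,
      Mesic (Subgroup.zpowers w') (fun A => ∑ y, lam y * chi y A) c →
      Mesic (Subgroup.zpowers w) (fun A => ∑ y, lam y * chi y A) c := by
    intro w w' h c hm A
    obtain ⟨P, hP⟩ := orbit_stats h lam
    rw [← (hP A).1, ← (hP A).2]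
    exact hm (P A)
  have k2 : ∀ {w w' : Equiv.Perm (Antichains F)}, Eqv w w' →
      Orbomesic (Subgroup.zpowers w') (fun A => ∑ y, lam y * chi y A) →
      Orbomesic (Subgroup.zpowers w) (fun A => ∑ y, lam y * chi y A) := by
    intro w w' h hm A A' hc
    obtain ⟨P, hP⟩ := orbit_stats h lam
    rw [← (hP A).1, ← (hP A').1] at hc
    rw [← (hP A).2, ← (hP A').2]
    exact hm (P A) (P A') hc
  exact ⟨fun c => ⟨k1 he.symm c, k1 he c⟩, k2 he.symm, k2 he⟩

end Pool.Agent.P.MP_caa0a9_co
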